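import Pool.Agent.H61.CMC.TargetsE1

/-! CMC (stage 2 of CM4), part E1, row ANG: the angular factor. -/

set_option autoImplicit false

open MeasureTheory Set Filter NumberField NumberField.InfinitePlace NumberField.Units
  NumberField.Units.dirichletUnitTheorem
open Pool.Agent.H65.CM4 Pool.Agent.H65.CMC Pool.Agent.H25.HK Pool.Agent.H61.CM4 Pool.Agent.H61.CMC
open scoped Real

namespace Pool.Agent.H64.CMC1

/-- the complex number `a + b (x + i y)` -/
noncomputable def ww (x y a b : ℝ) : ℂ := ((a + b * x : ℝ) : ℂ) + Complex.I * ((b * y : ℝ) : ℂ)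

theorem conj_ww (x y a b : ℝ) :
    (starRingEnd ℂ) (ww x y a b) = ((a + b * x : ℝ) : ℂ) - Complex.I * ((b * y : ℝ) : ℂ) := by
  rw [ww, map_add, map_mul, Complex.conj_I, Complex.conj_ofReal, Complex.conj_ofReal]
  ring

theorem ac_eq (x y a b : ℝ) :
    ac (x : ℂ) (y : ℂ) a b = ww x y a b / (starRingEnd ℂ) (ww x y a b) := by
  rw [conj_ww, ac, ww]
  congr 1
  · push_cast
    ring
  · push_cast
    ring

theorem ww_ne {x y a b : ℝ} (hy : 0 < y) (h : a ≠ 0 ∨ b ≠ 0) : ww x y a b ≠ 0 := by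
  intro h0
  have hre := congrArg Complex.re h0
  have him := congrArg Complex.im h0
  simp [ww] at hre him
  rcases him with hb | hy0
  · rw [hb] at hre
    rcases h with h | h
    · exact h (by simpa using hre)
    · exact h hb
  · exact hy.ne' hy0

theorem norm_ac {x y a b : ℝ} (hy : 0 < y) (h : a ≠ 0 ∨ b ≠ 0) :
    ‖ac (x : ℂ) (y : ℂ) a b‖ = 1 := by
  rw [ac_eq, norm_div, Complex.norm_conj, div_self]
  exact norm_ne_zero_iff.2 (ww_ne hy h)

theorem ac_zero (x y : ℂ) : ac x y 0 0 = 0 := by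
  simp [ac]

theorem ac_mul {r : ℝ} (hr : r ≠ 0) (x y : ℂ) (a b : ℝ) :
    ac x y (r * a) (r * b) = ac x y a b := by
  have hr' : (r : ℂ) ≠ 0 := by exact_mod_cast hr
  rw [ac, ac]
  have h1 : (((r * a : ℝ) : ℂ) + ((r * b : ℝ) : ℂ) * (x + Complex.I * y)) =
      (r : ℂ) * ((a : ℂ) + b * (x + Complex.I * y)) := by
    push_cast
    ring
  have h2 : (((r * a : ℝ) : ℂ) + ((r * b : ℝ) : ℂ) * (x - Complex.I * y)) =
      (r : ℂ) * ((a : ℂ) + b * (x - Complex.I * y)) := by
    push_cast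
    ring
  rw [h1, h2, mul_div_mul_left _ _ hr']

theorem qr_eq {x y : ℝ} (hy : 0 < y) (a b : ℝ) :
    ((qr x y a b : ℝ) : ℂ) = ((1 / (2 * y) : ℝ) : ℂ) *
      (ww x y a b * (starRingEnd ℂ) (ww x y a b)) := by
  rw [conj_ww, ww, qr]
  have hI : Complex.I * Complex.I = -1 := Complex.I_mul_I
  have hy' : (y : ℂ) ≠ 0 := by exact_mod_cast hy.ne'
  push_cast
  field_simp
  ring_nf
  rw [Complex.I_sq]
  ring

/-- one factor -/
theorem factor {x y : ℝ} (hy : 0 < y) (a b c : ℝ) (m : ℤ) :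
    ac (x : ℂ) (y : ℂ) a b ^ m * (((Real.exp c * qr x y a b) ^ m.natAbs : ℝ) : ℂ) =
      ((Real.exp c / (2 * y) : ℝ) : ℂ) ^ m.natAbs *
        (((a + b * x : ℝ) : ℂ) + Complex.I *
          (((if 0 ≤ m then 1 else -1) * (b * y) : ℝ) : ℂ)) ^ (2 * m.natAbs) := by
  have hq : ((Real.exp c * qr x y a b : ℝ) : ℂ) = ((Real.exp c / (2 * y) : ℝ) : ℂ) *
      (ww x y a b * (starRingEnd ℂ) (ww x y a b)) := by
    rw [Complex.ofReal_mul, qr_eq hy, ← mul_assoc, ← Complex.ofReal_mul]
    congr 2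
    ring
  rw [Complex.ofReal_pow, hq, ac_eq]
  set w := ww x y a b with hw
  set t : ℂ := ((Real.exp c / (2 * y) : ℝ) : ℂ) with ht
  by_cases hm : 0 ≤ m
  · have hz : (((a + b * x : ℝ) : ℂ) + Complex.I *
        (((if 0 ≤ m then 1 else -1) * (b * y) : ℝ) : ℂ)) = w := by
      rw [if_pos hm, one_mul, hw, ww]
    have hm' : m = (m.natAbs : ℤ) := (Int.natAbs_of_nonneg hm).symm
    rw [hz]
    generalize m.natAbs = n at hm'
    rw [hm', zpow_natCast, ← mul_pow, pow_mul, ← mul_pow]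
    congr 1
    by_cases h0 : w = 0
    · rw [h0]
      simp
    · have h1 : (starRingEnd ℂ) w ≠ 0 := (map_ne_zero _).2 h0
      field_simp
  · have hm0 : m < 0 := not_le.1 hm
    have hz : (((a + b * x : ℝ) : ℂ) + Complex.I *
        (((if 0 ≤ m then 1 else -1) * (b * y) : ℝ) : ℂ)) = (starRingEnd ℂ) w := by
      rw [if_neg hm, hw, conj_ww]
      push_cast
      ring
    have hm' : m = -(m.natAbs : ℤ) := by omega
    rw [hz]
    generalize m.natAbs = n at hm'
    rw [hm', zpow_neg, zpow_natCast, ← inv_pow, inv_div, ← mul_pow, pow_mul, ← mul_pow]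
    congr 1
    by_cases h0 : w = 0
    · rw [h0]
      simp
    · have h1 : (starRingEnd ℂ) w ≠ 0 := (map_ne_zero _).2 h0
      field_simp

theorem pf_ANG : T_ANG := by
  intro k _ _ _ m x y hy
  classical
  have h1 : ∀ u : V2 k, u ≠ 0 → ‖am m x y u‖ = 1 := by
    intro u hu
    rw [am, an, norm_prod]
    refine Finset.prod_eq_one fun v _ => ?_
    rw [norm_zpow, norm_ac (hy v), one_zpow]
    by_contra hcon
    push Not at hcon
    obtain ⟨ha, hb⟩ := hcon
    rw [map_eq_zero] at ha hb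
    apply hu
    have ha' : u.1 = 0 := by exact_mod_cast ha
    have hb' : u.2 = 0 := by exact_mod_cast hb
    exact Prod.ext ha' hb'
  have h3 : am m x y 0 = if m = 0 then 1 else 0 := by
    rw [am, an]
    have e : ∀ v : Pl k, ac ((x v : ℝ) : ℂ) ((y v : ℝ) : ℂ) (rv v (((0 : V2 k).1 : 𝓞 k) : k))
        (rv v (((0 : V2 k).2 : 𝓞 k) : k)) = 0 := by
      intro v
      have z1 : (((0 : V2 k).1 : 𝓞 k) : k) = 0 := by simp
      have z2 : (((0 : V2 k).2 : 𝓞 k) : k) = 0 := by simp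
      rw [z1, z2, map_zero, ac_zero]
    by_cases hm : m = 0
    · rw [if_pos hm]
      refine Finset.prod_eq_one fun v _ => ?_
      rw [e v, hm]
      simp
    · rw [if_neg hm]
      obtain ⟨v, hv⟩ := Function.ne_iff.1 hm
      refine Finset.prod_eq_zero (Finset.mem_univ v) ?_
      rw [e v]
      exact zero_zpow _ hv
  refine ⟨h1, ?_, h3, ?_, ?_⟩
  · intro u
    by_cases hu : u = 0
    · rw [hu, h3]
      split_ifs
      · simp
      · simp
    · rw [h1 u hu]
  · intro a u ha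
    rw [am, am, an, an]
    refine Finset.prod_congr rfl fun v _ => ?_
    have hr : rv v (a : k) ≠ 0 := by
      rw [Ne, map_eq_zero]
      intro h
      exact ha (by exact_mod_cast h)
    have e1 : (((a • u).1 : 𝓞 k) : k) = (a : k) * (u.1 : k) := by
      simp
    have e2 : (((a • u).2 : 𝓞 k) : k) = (a : k) * (u.2 : k) := by
      simp
    rw [e1, e2, map_mul, map_mul, ac_mul hr]
  · intro c u
    rw [am, an, pq, Complex.ofReal_prod, ← Finset.prod_mul_distrib]
    refine Finset.prod_congr rfl fun v _ => ?_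
    exact factor (hy v) _ _ _ _

end Pool.Agent.H64.CMC1
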